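import Pool.Agent.Y926.KS.Final

/-!
# Size functions of classes of matroids with a full `GF(r)`-class

Q1 is false, for every `q ≥ 4`. The definitions (`InU`, `InL`, `points`, `InEX`, `sizes`, `orders`) are in
`Pool/Agent/Y926/KS/Main.lean`.

For `q ≥ 4` let the collection consist of all matroids in `U(q)` which have, for some `m`, rank at most `m` and at least
`2^(m+1)` points. It contains the affine geometries of rank `5` over all fields with `r` elements, `3 ≤ r ≤ q`, and no
binary matroid; so the largest prime power in question is `2`. But the projection of the binary projective geometry of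
rank `n + 1` from a point on one of its lines, `(1, ω, 0, …, 0)` with `ω ∈ GF(4) ∖ GF(2)`, has no member of the collection
as a minor, lies in `U(4)` and has rank `n` and at least `2^(n+1) - 4` points.
-/

set_option autoImplicit false

open Pool.Agent.Y926.KS

namespace Pool.Agent.Results.MP_f02e69_co.Disproof

/-- **The assertion of Q1**: for every `q ≥ 2`, every collection `C` of matroids in `U(q)` and the largest prime power
`r ≤ q` such that no member of `C` is representable over `GF(r)` (if there is one), the maximal number `h(n)` of points of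
a matroid of rank `n` in `EX(C) ∩ U(q)` is `(r^n - 1) / (r - 1)` for all large `n`. -/
def Q1 : Prop :=
  ∀ q : ℕ, 2 ≤ q → ∀ C : (α : Type) → Matroid α → Prop, (∀ (α : Type) (M : Matroid α), C α M → InU q M) →
    ∀ r : ℕ, IsGreatest (orders q C) r →
      ∃ n₀ : ℕ, ∀ n ≥ n₀, IsGreatest (sizes q C n) ((r ^ n - 1) / (r - 1))

/-- **Q1 is false.** Moreover, for every `q ≥ 4` there is a collection `C` of matroids in `U(q)` for which the largest
prime power is `2`, while for every `n ≥ 1` there is a matroid of rank `n` in `EX(C) ∩ U(q)` with at least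
`2^(n+1) - 4` points (instead of `2^n - 1`). -/
theorem result : ¬ Q1 ∧
    ∀ q : ℕ, 4 ≤ q → ∃ C : (α : Type) → Matroid α → Prop,
      (∀ (α : Type) (M : Matroid α), C α M → InU q M) ∧ IsGreatest (orders q C) 2 ∧
      ∀ n : ℕ, 1 ≤ n → ∃ k ∈ sizes q C n, 2 ^ (n + 1) ≤ k + 4 := by
  refine ⟨fun h => ?_, fun q hq => main q hq⟩
  obtain ⟨C, h1, h2, h3⟩ := main 4 le_rfl
  obtain ⟨n₀, hn₀⟩ := h 4 (by norm_num) C h1 2 h2
  obtain ⟨k, hk, hk2⟩ := h3 (n₀ + 2) (by omega)
  have h4 := (hn₀ (n₀ + 2) (by omega)).2 hk
  have h5 : 1 ≤ 2 ^ n₀ := Nat.one_le_two_pow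
  have h6 : 2 ^ (n₀ + 2 + 1) = 8 * 2 ^ n₀ := by rw [pow_add, pow_add]; ring
  have h7 : 2 ^ (n₀ + 2) = 4 * 2 ^ n₀ := by rw [pow_add]; ring
  rw [h7] at h4
  rw [h6] at hk2
  simp only [Nat.reduceSub, Nat.div_one] at h4
  omega

end Pool.Agent.Results.MP_f02e69_co.Disproof
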